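import Pool.Agent.NL.StmtsA

/-!
# NL, row GPT (helper10): good neighbours, additive form
-/

set_option autoImplicit false

open MeasureTheory Filter Topology

noncomputable section

namespace Pool.Agent.NL.H10

theorem l1_nonneg (b : ℝ →₀ ℝ) : 0 ≤ l1 b := by
  unfold l1
  exact Finset.sum_nonneg fun _ _ => abs_nonneg _

theorem gpt (hS : StqStmt) (hR : RcnStmt) : GptStmt := by
  intro X _ _ f F G Ψ hC a T hG s hs Φ E _ ε hε
  have h1 := hS X f F G Ψ hC T hG s hs Φ E ε hε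
  have h2 : ∀ᶠ x in dens s, ∀ U ∈ T.powerset, s ∈ U → ¬ Rch G Ψ a U →
      ¬ Rch G Ψ a (insert x U) := by
    refine (Filter.eventually_all_finset _).2 fun U _ => ?_
    by_cases hs' : s ∈ U
    · by_cases hU : Rch G Ψ a U
      · exact Filter.Eventually.of_forall fun x _ h => absurd hU h
      · exact ((hR X G Ψ a U hU).2.1 s hs').mono fun x hx _ _ => hx
    · exact Filter.Eventually.of_forall fun x h => absurd h hs'
  filter_upwards [h1, h2] with x hx1 hx2
  obtain ⟨hxT, hGn, hco, hup⟩ := hx1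
  refine ⟨hxT, hGn, hco, ?_, fun U hU => hx2 U (Finset.mem_powerset.2 hU)⟩
  intro b hb t ht0 ht1 y hy
  have h3 : V G b + (t * b s) • (G x - G s) - Ψ y =
      (1 - t) • (V G b - Ψ y) + t • (V G b + b s • (G x - G s) - Ψ y) := by
    rw [mul_smul]
    module
  have h4 := hup b hb y hy
  have h5 : 0 ≤ l1 b + ‖y‖ := add_nonneg (l1_nonneg b) (norm_nonneg y)
  have h6 : ‖(1 - t) • (V G b - Ψ y)‖ = (1 - t) * ‖V G b - Ψ y‖ := by
    rw [norm_smul, Real.norm_of_nonneg (by linarith)]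
  have h7 : ‖t • (V G b + b s • (G x - G s) - Ψ y)‖ =
      t * ‖V G b + b s • (G x - G s) - Ψ y‖ := by
    rw [norm_smul, Real.norm_of_nonneg ht0]
  rw [h3]
  refine (norm_add_le _ _).trans ?_
  rw [h6, h7]
  have h8 := mul_le_mul_of_nonneg_left h4 ht0
  have h9 : t * (ε * (l1 b + ‖y‖)) ≤ 1 * (ε * (l1 b + ‖y‖)) :=
    mul_le_mul_of_nonneg_right ht1 (mul_nonneg hε.le h5)
  linarith

end Pool.Agent.NL.H10
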